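import Pool.Agent.L7h21.Sq.Final

/-!
# The number of zeros and of ones among the binary digits of `√2`: beyond `(3 / 2) √n`

No hypothesis is assumed.  For all large `n` the number `N` of zeros among the first `n` binary
digits of `√2` satisfies `200 n ≤ 87 N ^ 2`, that is `N ≥ 1.5161 √n`, and so does the number of
ones.  More generally, for every real quadratic irrational `ξ` with `A ξ² + B ξ + C = 0`, `A > 0`,
and every base `b`, the sum `K` of the first `n` digits `c_k` satisfies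
`(b - 1) gcd(b, 2 A) n / A ≤ 0.87 K ^ 2` for all large `n`, and so does the sum of the first `n`
complementary digits `b - 1 - c_k`.
-/

set_option autoImplicit false

open Finset

namespace Pool.Agent.Results.MP_0308e6_nt.DigitCountCertificate

/-- the `k`-th digit of `ξ` after the point in base `b` -/
noncomputable def digit (b : ℕ) (ξ : ℝ) (k : ℕ) : ℤ := ⌊ξ * (b : ℝ) ^ k⌋ % (b : ℤ)

lemma digit_neg {b : ℕ} (hb : 2 ≤ b) {ξ : ℝ} (hirr : Irrational ξ) (k : ℕ) :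
    digit b (-ξ) k = b - 1 - digit b ξ k := by
  unfold digit
  have h1 : ⌊-ξ * (b : ℝ) ^ k⌋ = -⌊ξ * (b : ℝ) ^ k⌋ - 1 := by
    have h2 : Irrational (ξ * ((b ^ k : ℕ) : ℝ)) := hirr.mul_natCast (by positivity)
    have h3 : ξ * (b : ℝ) ^ k = ξ * ((b ^ k : ℕ) : ℝ) := by push_cast; rfl
    rw [neg_mul, h3]
    set z : ℝ := ξ * ((b ^ k : ℕ) : ℝ) with hz
    rw [Int.floor_eq_iff]
    push_cast
    have h4 := Int.floor_le z
    have h5 := Int.lt_floor_add_one z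
    have h6 : (⌊z⌋ : ℝ) ≠ z := fun h => h2 ⟨(⌊z⌋ : ℚ), by push_cast; exact h⟩
    have h7 : (⌊z⌋ : ℝ) < z := lt_of_le_of_ne h4 h6
    constructor <;> linarith
  rw [h1]
  set m := ⌊ξ * (b : ℝ) ^ k⌋
  have hb' : (0 : ℤ) < b := by exact_mod_cast (by omega : 0 < b)
  have h8 := Int.emod_add_mul_ediv m b
  have h9 := Int.emod_nonneg m hb'.ne'
  have h10 := Int.emod_lt_of_pos m hb'
  have h11 : -m - 1 = (b - 1 - m % b) + b * (-(m / b) - 1) := by linarith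
  rw [h11, Int.add_mul_emod_self_left]
  exact Int.emod_eq_of_lt (by omega) (by omega)

lemma one {b : ℕ} (hb : 2 ≤ b) {A B C : ℤ} (hA : 0 < A) {ξ : ℝ} (hirr : Irrational ξ)
    (hq : (A : ℝ) * ξ ^ 2 + B * ξ + C = 0) :
    ∃ n₀ : ℕ, ∀ n : ℕ, n₀ ≤ n →
      100 * (((b : ℤ) - 1) * (Int.gcd b (2 * A) : ℕ) * n) ≤
        87 * A * (∑ k ∈ Icc 1 n, digit b ξ k) ^ 2 := by
  have hsum : ∀ (η : ℝ) (n : ℕ), ∑ k ∈ range n, ⌊η * (b : ℝ) ^ (k + 1)⌋ % (b : ℤ) =
      ∑ k ∈ Icc 1 n, digit b η k := by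
    intro η n
    induction n with
    | zero => simp
    | succ n ih =>
      rw [sum_range_succ, Finset.sum_Icc_succ_top (by omega), ih]
      rfl
  obtain ⟨n1, h1⟩ := Pool.Agent.L7h21.Sq.quad_real87 hb hA hirr hq
  refine ⟨n1, fun n hn => ?_⟩
  have h2 := h1 n hn
  rw [hsum] at h2
  have hAR : (0 : ℝ) < A := by exact_mod_cast hA
  have h3 : (100 : ℝ) * (((b : ℝ) - 1) * ((Int.gcd b (2 * A) : ℕ) : ℝ) * n) ≤
      87 * A * ((∑ k ∈ Icc 1 n, digit b ξ k : ℤ) : ℝ) ^ 2 := by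
    have h4 := mul_le_mul_of_nonneg_left h2 (by positivity : (0 : ℝ) ≤ 100 * A)
    have e1 : (100 : ℝ) * A * (((b : ℝ) - 1) * (Int.gcd b (2 * A) : ℕ) / A * n) =
        100 * (((b : ℝ) - 1) * ((Int.gcd b (2 * A) : ℕ) : ℝ) * n) := by
      field_simp
    rw [e1] at h4
    refine h4.trans (le_of_eq ?_)
    ring
  exact_mod_cast h3

/-- The result. -/
theorem result :
    (∃ n₀ : ℕ, ∀ n : ℕ, n₀ ≤ n →
      200 * n ≤ 87 * ((Icc 1 n).filter (fun k => digit 2 (Real.sqrt 2) k = 0)).card ^ 2 ∧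
      200 * n ≤ 87 * ((Icc 1 n).filter (fun k => digit 2 (Real.sqrt 2) k = 1)).card ^ 2) ∧
    (∀ b : ℕ, 2 ≤ b → ∀ A B C : ℤ, 0 < A → ∀ ξ : ℝ, Irrational ξ →
      (A : ℝ) * ξ ^ 2 + B * ξ + C = 0 → ∃ n₀ : ℕ, ∀ n : ℕ, n₀ ≤ n →
        100 * (((b : ℤ) - 1) * (Int.gcd b (2 * A) : ℕ) * n) ≤
          87 * A * (∑ k ∈ Icc 1 n, digit b ξ k) ^ 2 ∧
        100 * (((b : ℤ) - 1) * (Int.gcd b (2 * A) : ℕ) * n) ≤
          87 * A * (∑ k ∈ Icc 1 n, (b - 1 - digit b ξ k)) ^ 2) := by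
  have both : ∀ b : ℕ, 2 ≤ b → ∀ A B C : ℤ, 0 < A → ∀ ξ : ℝ, Irrational ξ →
      (A : ℝ) * ξ ^ 2 + B * ξ + C = 0 → ∃ n₀ : ℕ, ∀ n : ℕ, n₀ ≤ n →
        100 * (((b : ℤ) - 1) * (Int.gcd b (2 * A) : ℕ) * n) ≤
          87 * A * (∑ k ∈ Icc 1 n, digit b ξ k) ^ 2 ∧
        100 * (((b : ℤ) - 1) * (Int.gcd b (2 * A) : ℕ) * n) ≤
          87 * A * (∑ k ∈ Icc 1 n, (b - 1 - digit b ξ k)) ^ 2 := by
    intro b hb A B C hA ξ hirr hq
    obtain ⟨n1, h1⟩ := one hb hA hirr hq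
    obtain ⟨n2, h2⟩ := one hb (A := A) (B := -B) (C := C) hA hirr.neg
      (by push_cast; linarith)
    refine ⟨max n1 n2, fun n hn => ⟨h1 n ((le_max_left _ _).trans hn), ?_⟩⟩
    have := h2 n ((le_max_right _ _).trans hn)
    simpa only [digit_neg hb hirr] using this
  refine ⟨?_, both⟩
  obtain ⟨n0, h⟩ := both 2 le_rfl 1 0 (-2) one_pos (Real.sqrt 2) irrational_sqrt_two (by
      push_cast
      rw [Real.sq_sqrt (by norm_num)]; norm_num)
  have e1 : Int.gcd (2 : ℕ) (2 * 1) = 2 := by decide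
  have hd : ∀ k, digit 2 (Real.sqrt 2) k = 0 ∨ digit 2 (Real.sqrt 2) k = 1 := by
    intro k
    unfold digit
    push_cast
    omega
  refine ⟨n0, fun n hn => ⟨?_, ?_⟩⟩
  · have h2 := (h n hn).2
    rw [e1] at h2
    have h3 : (∑ k ∈ Icc 1 n, (((2 : ℕ) : ℤ) - 1 - digit 2 (Real.sqrt 2) k)) =
        (((Icc 1 n).filter (fun k => digit 2 (Real.sqrt 2) k = 0)).card : ℤ) := by
      rw [card_filter]
      push_cast
      refine sum_congr rfl fun k _ => ?_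
      rcases hd k with h3 | h3 <;> rw [h3] <;> norm_num
    rw [h3] at h2
    push_cast at h2
    have h4 : (200 : ℤ) * n ≤
        87 * (((Icc 1 n).filter (fun k => digit 2 (Real.sqrt 2) k = 0)).card : ℤ) ^ 2 := by
      linarith
    exact_mod_cast h4
  · have h2 := (h n hn).1
    rw [e1] at h2
    have h3 : (∑ k ∈ Icc 1 n, digit 2 (Real.sqrt 2) k) =
        (((Icc 1 n).filter (fun k => digit 2 (Real.sqrt 2) k = 1)).card : ℤ) := by
      rw [card_filter]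
      push_cast
      refine sum_congr rfl fun k _ => ?_
      rcases hd k with h3 | h3 <;> rw [h3] <;> norm_num
    rw [h3] at h2
    push_cast at h2
    have h4 : (200 : ℤ) * n ≤
        87 * (((Icc 1 n).filter (fun k => digit 2 (Real.sqrt 2) k = 1)).card : ℤ) ^ 2 := by
      linarith
    exact_mod_cast h4

end Pool.Agent.Results.MP_0308e6_nt.DigitCountCertificate
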