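import Pool.Agent.L7h46.MB.Main2

/-!
# The binary digits of most multiples of `√2`

No hypothesis is assumed. The best known lower bound for the number of zeros, or of ones, among the
first `n` binary digits of `√2` (or of any fixed multiple) is a constant times `√n`. For most of the
multiples `m √2`, `m ≤ M`, the bound `c √(n (1 + log M))` is proved here, uniformly for
`1 ≤ M ≤ 2 ^ n`. In particular, for every `C`, almost all `m √2` have at least `C √n` zeros and at
least `C √n` ones among the first `n` binary digits, for infinitely many `n`.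

Proof. Let `Q` be a constant. A place `k` is good if `Q! √2 2 ^ k` is not within about `1 / M` to the
right of an integer, that is, if it is followed by a nonzero digit of `Q! √2` within about `log M`
places. By the pigeonhole principle, for good `k` only few of the points `m √2 2 ^ k`, `m ≤ M`, lie in
a short arc to the right of zero. The covering theorem for the nonzero digits of algebraic numbers
(starting files `Pool.Agent.R474.AG`), applied to `Q! √2` and to intervals of length about `log M`,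
gives many good places.
-/

set_option autoImplicit false

open Finset Filter Topology

namespace Pool.Agent.Results.MP_0308e6_nt.DigitCountsOfMultiples

/-- the `k`-th digit of `x` after the point in base `b` -/
noncomputable def digit (b : ℕ) (x : ℝ) (k : ℕ) : ℤ := ⌊x * (b : ℝ) ^ k⌋ % (b : ℤ)

/-- the number of `k` in `[1, n]` for which the `k`-th digit of `x` is not `e` -/
noncomputable def others (b : ℕ) (x : ℝ) (e : ℤ) (n : ℕ) : ℕ :=
  ((Icc 1 n).filter (fun k => digit b x k ≠ e)).card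

/-- the number of `k` in `[1, n]` for which the `k`-th binary digit of `x` is `v` -/
noncomputable def count (v : ℤ) (x : ℝ) (n : ℕ) : ℕ :=
  ((Icc 1 n).filter (fun k => digit 2 x k = v)).card

open Classical in
/-- the number of the `m` in `[1, M]` which do not have the property `P` -/
noncomputable def exceptions (P : ℕ → Prop) (M : ℕ) : ℕ := ((Icc 1 M).filter (fun m => ¬ P m)).card

lemma exceptions_mono {P P' : ℕ → Prop} {M : ℕ} (h : ∀ m, 1 ≤ m → m ≤ M → P m → P' m) :
    exceptions P' M ≤ exceptions P M := by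
  classical
  unfold exceptions
  apply card_le_card
  intro m hm
  rw [mem_filter, mem_Icc] at hm ⊢
  exact ⟨hm.1, fun h1 => hm.2 (h m hm.1.1 hm.1.2 h1)⟩

lemma exceptions_and {P P' : ℕ → Prop} {M : ℕ} :
    exceptions (fun m => P m ∧ P' m) M ≤ exceptions P M + exceptions P' M := by
  classical
  unfold exceptions
  refine (card_le_card ?_).trans (card_union_le _ _)
  intro m hm
  simp only [mem_filter, mem_union] at hm ⊢
  tauto

/-- one exceptional set for infinitely many `n` -/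
lemma exceptions_freq {P : ℕ → ℕ → Prop} {M E : ℕ} (h : ∀ᶠ n in atTop, exceptions (P n) M ≤ E) :
    exceptions (fun m => ∃ᶠ n in atTop, P n m) M ≤ E := by
  classical
  have h1 : ∀ᶠ n in atTop, ∀ m ∈ (Icc 1 M).filter (fun m => ¬ ∃ᶠ n in atTop, P n m), ¬ P n m := by
    rw [Filter.eventually_all_finset]
    intro m hm
    exact not_frequently.1 (mem_filter.1 hm).2
  obtain ⟨n, hn1, hn2⟩ := (h.and h1).exists
  refine le_trans ?_ hn1
  unfold exceptions
  apply card_le_card
  intro m hm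
  exact mem_filter.2 ⟨(mem_filter.1 hm).1, hn2 m hm⟩

lemma both (x : ℝ) (halg : IsAlgebraic ℚ x) (hirr : Irrational x) (D : ℕ)
    (hD : (minpoly ℚ x).natDegree = D) (b : ℕ) (hb : 2 ≤ b) (δ : ℝ) (hδ : 0 < δ) :
    ∃ c : ℝ, 0 < c ∧ ∃ n₀ : ℕ, ∀ n : ℕ, n₀ ≤ n → ∀ M : ℕ, 1 ≤ M → M ≤ b ^ n →
      (exceptions (fun m =>
        c * ((n : ℝ) ^ (1 / (D : ℝ)) * (1 + Real.log M) ^ (1 - 1 / (D : ℝ))) ≤ others b (m * x) 0 n ∧
        c * ((n : ℝ) ^ (1 / (D : ℝ)) * (1 + Real.log M) ^ (1 - 1 / (D : ℝ))) ≤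
          others b (m * x) (b - 1) n) M : ℝ) ≤ δ * M := by
  classical
  have hD' : (minpoly ℚ (-x)).natDegree = D := by
    have := Pool.Agent.L7h46.MB.deg_mul x halg (-1 : ℚ) (by norm_num)
    rw [← hD, ← this]
    congr 2
    push_cast
    ring
  obtain ⟨c1, hc1, n1, h1⟩ := Pool.Agent.L7h46.MB.main_zero hb halg hirr hD (δ / 2) (by positivity)
  obtain ⟨c2, hc2, n2, h2⟩ := Pool.Agent.L7h46.MB.main_zero hb halg.neg hirr.neg hD' (δ / 2)
    (by positivity)
  refine ⟨min c1 c2, lt_min hc1 hc2, max n1 n2, fun n hn M hM1 hM2 => ?_⟩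
  have a1 := h1 n ((le_max_left _ _).trans hn) M hM1 hM2
  have a2 := h2 n ((le_max_right _ _).trans hn) M hM1 hM2
  have hlog : 0 ≤ Real.log M := Real.log_nonneg (by exact_mod_cast hM1)
  set V : ℝ := (n : ℝ) ^ (1 / (D : ℝ)) * (1 + Real.log M) ^ (1 - 1 / (D : ℝ)) with hV
  have hV0 : 0 ≤ V := by positivity
  have b1 : exceptions (fun m => min c1 c2 * V ≤ others b (m * x) 0 n) M ≤
      ((Icc 1 M).filter (fun m : ℕ => ¬ c1 * V ≤ Pool.Agent.L7h46.MB.oth b (m * x) n)).card := by
    unfold exceptions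
    apply card_le_card
    intro m hm
    rw [mem_filter] at hm ⊢
    refine ⟨hm.1, fun h => hm.2 ?_⟩
    have : min c1 c2 * V ≤ c1 * V := mul_le_mul_of_nonneg_right (min_le_left _ _) hV0
    exact this.trans h
  have b2 : exceptions (fun m => min c1 c2 * V ≤ others b (m * x) (b - 1) n) M ≤
      ((Icc 1 M).filter (fun m : ℕ => ¬ c2 * V ≤ Pool.Agent.L7h46.MB.oth b (m * -x) n)).card := by
    unfold exceptions
    apply card_le_card
    intro m hm
    rw [mem_filter] at hm ⊢
    refine ⟨hm.1, fun h => hm.2 ?_⟩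
    have hm1 : 1 ≤ m := (mem_Icc.1 hm.1).1
    have h3 : min c1 c2 * V ≤ c2 * V := mul_le_mul_of_nonneg_right (min_le_right _ _) hV0
    refine h3.trans (h.trans (le_of_eq ?_))
    congr 1
    unfold Pool.Agent.L7h46.MB.oth others
    congr 1
    refine filter_congr fun p _ => ?_
    have hmx : Irrational ((m : ℝ) * x) := hirr.natCast_mul (by omega)
    have h4 := Pool.Agent.H820R3.DG.digit_neg hb hmx p
    rw [show (m : ℝ) * -x = -((m : ℝ) * x) by ring, h4]
    change _ ↔ Pool.Agent.H820R3.DG.digit b ((m : ℝ) * x) p ≠ _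
    constructor
    · intro h5 h6
      exact h5 (by rw [h6]; ring)
    · intro h5 h6
      exact h5 (by linarith)
  have b1r : (exceptions (fun m => min c1 c2 * V ≤ others b (m * x) 0 n) M : ℝ) ≤ δ / 2 * M :=
    le_trans (Nat.cast_le.2 b1) a1
  have b2r : (exceptions (fun m => min c1 c2 * V ≤ others b (m * x) (b - 1) n) M : ℝ) ≤ δ / 2 * M :=
    le_trans (Nat.cast_le.2 b2) a2
  have h3 : (exceptions (fun m => min c1 c2 * V ≤ others b (m * x) 0 n ∧
      min c1 c2 * V ≤ others b (m * x) (b - 1) n) M : ℝ) ≤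
      (exceptions (fun m => min c1 c2 * V ≤ others b (m * x) 0 n) M : ℝ) +
      (exceptions (fun m => min c1 c2 * V ≤ others b (m * x) (b - 1) n) M : ℝ) := by
    exact_mod_cast exceptions_and
  linarith

lemma sqrt_two_deg : (minpoly ℚ (√2 : ℝ)).natDegree = 2 := by
  have halg : IsIntegral ℚ (√2 : ℝ) := by
    refine ⟨Polynomial.X ^ 2 - Polynomial.C 2, Polynomial.monic_X_pow_sub_C 2 (by norm_num), ?_⟩
    rw [← Polynomial.aeval_def, map_sub, map_pow, Polynomial.aeval_X, Polynomial.aeval_C,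
      Real.sq_sqrt (by norm_num)]
    norm_num
  have h2 : (minpoly ℚ (√2 : ℝ)).natDegree ≤ 2 := by
    have h3 : minpoly ℚ (√2 : ℝ) ∣ (Polynomial.X ^ 2 - Polynomial.C 2 : Polynomial ℚ) := by
      apply minpoly.dvd
      rw [map_sub, map_pow, Polynomial.aeval_X, Polynomial.aeval_C, Real.sq_sqrt (by norm_num)]
      norm_num
    have h4 := Polynomial.natDegree_le_of_dvd h3
      (Polynomial.monic_X_pow_sub_C (R := ℚ) 2 (by norm_num : (2:ℕ) ≠ 0)).ne_zero
    rwa [Polynomial.natDegree_X_pow_sub_C] at h4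
  have h1 : (minpoly ℚ (√2 : ℝ)).natDegree ≠ 1 := by
    intro h1
    have h5 := (minpoly.natDegree_eq_one_iff).1 h1
    obtain ⟨q, hq⟩ := h5
    exact irrational_sqrt_two ⟨q, by simpa using hq⟩
  have h0 := minpoly.natDegree_pos halg
  omega

lemma digit_two (x : ℝ) (k : ℕ) : digit 2 x k = 0 ∨ digit 2 x k = 1 := by
  unfold digit
  push_cast
  omega

lemma count_zero (x : ℝ) (n : ℕ) : others 2 x (((2 : ℕ) : ℤ) - 1) n = count 0 x n := by
  unfold others count
  congr 1
  refine filter_congr fun k _ => ?_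
  rcases digit_two x k with h | h <;> rw [h] <;> norm_num

lemma count_one (x : ℝ) (n : ℕ) : others 2 x 0 n = count 1 x n := by
  unfold others count
  congr 1
  refine filter_congr fun k _ => ?_
  rcases digit_two x k with h | h <;> rw [h] <;> norm_num

lemma two (δ : ℝ) (hδ : 0 < δ) : ∃ c : ℝ, 0 < c ∧ ∃ n₀ : ℕ, ∀ n : ℕ, n₀ ≤ n → ∀ M : ℕ, 1 ≤ M →
    M ≤ 2 ^ n → (exceptions (fun m => ∀ v : ℤ, v = 0 ∨ v = 1 →
      c * √(n * (1 + Real.log M)) ≤ count v (m * √2) n) M : ℝ) ≤ δ * M := by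
  have halg : IsAlgebraic ℚ (√2 : ℝ) := by
    refine ⟨Polynomial.X ^ 2 - Polynomial.C 2, Polynomial.X_pow_sub_C_ne_zero (by norm_num) _, ?_⟩
    rw [map_sub, map_pow, Polynomial.aeval_X, Polynomial.aeval_C, Real.sq_sqrt (by norm_num)]
    norm_num
  obtain ⟨c, hc, n₀, h⟩ := both (√2) halg irrational_sqrt_two 2 sqrt_two_deg 2 le_rfl δ hδ
  refine ⟨c, hc, n₀, fun n hn M hM1 hM2 => le_trans (Nat.cast_le.2 ?_) (h n hn M hM1 hM2)⟩
  apply exceptions_mono
  rintro m - - ⟨h1, h2⟩ v hv
  rw [count_zero] at h2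
  rw [count_one] at h1
  have hlog : 0 ≤ Real.log M := Real.log_nonneg (by exact_mod_cast hM1)
  have e1 : (n : ℝ) ^ (1 / ((2 : ℕ) : ℝ)) * (1 + Real.log M) ^ (1 - 1 / ((2 : ℕ) : ℝ)) =
      √(n * (1 + Real.log M)) := by
    rw [Real.sqrt_eq_rpow, Real.mul_rpow (Nat.cast_nonneg _) (by linarith)]
    norm_num
  rw [e1] at h1 h2
  rcases hv with rfl | rfl
  · exact h2
  · exact h1

/-- (1) Let `x` be a real irrational algebraic number of degree `D`, `b ≥ 2` and `δ > 0`. There are
`c > 0` and `n₀` such that for all `n ≥ n₀` and `1 ≤ M ≤ b ^ n`, for all but at most `δ M` of the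
`m ≤ M`, at least `c n ^ (1 / D) (1 + log M) ^ (1 - 1 / D)` of the first `n` digits of `m x` in base
`b` are different from `0`, and at least as many are different from `b - 1`. (2) For all `δ > 0` there
are `c > 0` and `n₀` such that for all `n ≥ n₀` and `1 ≤ M ≤ 2 ^ n`, for all but at most `δ M` of the
`m ≤ M`, at least `c √(n (1 + log M))` of the first `n` binary digits of `m √2` are zeros, and at least
as many are ones. (3) For every `C` almost all `m` (all but `o(M)` of the `m ≤ M`) are such that, for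
infinitely many `n`, at least `C √n` of the first `n` binary digits of `m √2` are zeros and at least
`C √n` are ones. -/
theorem result :
    (∀ x : ℝ, IsAlgebraic ℚ x → Irrational x → ∀ D : ℕ, (minpoly ℚ x).natDegree = D →
      ∀ b : ℕ, 2 ≤ b → ∀ δ : ℝ, 0 < δ →
      ∃ c : ℝ, 0 < c ∧ ∃ n₀ : ℕ, ∀ n : ℕ, n₀ ≤ n → ∀ M : ℕ, 1 ≤ M → M ≤ b ^ n →
        (exceptions (fun m =>
          c * ((n : ℝ) ^ (1 / (D : ℝ)) * (1 + Real.log M) ^ (1 - 1 / (D : ℝ))) ≤
            others b (m * x) 0 n ∧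
          c * ((n : ℝ) ^ (1 / (D : ℝ)) * (1 + Real.log M) ^ (1 - 1 / (D : ℝ))) ≤
            others b (m * x) (b - 1) n) M : ℝ) ≤ δ * M) ∧
    (∀ δ : ℝ, 0 < δ → ∃ c : ℝ, 0 < c ∧ ∃ n₀ : ℕ, ∀ n : ℕ, n₀ ≤ n → ∀ M : ℕ, 1 ≤ M → M ≤ 2 ^ n →
      (exceptions (fun m => ∀ v : ℤ, v = 0 ∨ v = 1 →
        c * √(n * (1 + Real.log M)) ≤ count v (m * √2) n) M : ℝ) ≤ δ * M) ∧
    (∀ C : ℝ, Tendsto (fun M : ℕ => (exceptions (fun m => ∃ᶠ n : ℕ in atTop,
      ∀ v : ℤ, v = 0 ∨ v = 1 → C * √n ≤ count v (m * √2) n) M : ℝ) / M) atTop (𝓝 0)) := by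
  refine ⟨fun x halg hirr D hD b hb δ hδ => both x halg hirr D hD b hb δ hδ, two, fun C => ?_⟩
  rw [Metric.tendsto_atTop]
  intro ε hε
  obtain ⟨c, hc, n₀, h⟩ := two (ε / 2) (by positivity)
  obtain ⟨M₁, hM₁⟩ := exists_nat_ge (Real.exp ((C / c) ^ 2))
  refine ⟨max M₁ 1, fun M hM => ?_⟩
  have hM1 : 1 ≤ M := (le_max_right _ _).trans hM
  have hM1r : (1 : ℝ) ≤ M := by exact_mod_cast hM1
  have hMe : Real.exp ((C / c) ^ 2) ≤ M := hM₁.trans (by exact_mod_cast (le_max_left _ _).trans hM)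
  have hlog : (C / c) ^ 2 ≤ Real.log M := by
    rw [Real.le_log_iff_exp_le (by linarith)]; exact hMe
  set E : ℕ := ⌊ε / 2 * M⌋₊ with hE
  have h1 : exceptions (fun m => ∃ᶠ n : ℕ in atTop,
      ∀ v : ℤ, v = 0 ∨ v = 1 → C * √n ≤ count v (m * √2) n) M ≤ E := by
    apply exceptions_freq
    have h2 : ∀ᶠ n : ℕ in atTop, M ≤ 2 ^ n := by
      filter_upwards [eventually_ge_atTop M] with n hn
      exact hn.trans (Nat.lt_two_pow_self).le
    filter_upwards [h2, eventually_ge_atTop n₀] with n hn1 hn2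
    have h3 := h n hn2 M hM1 hn1
    apply Nat.le_floor
    refine le_trans (Nat.cast_le.2 (exceptions_mono ?_)) h3
    intro m _ _ h4 v hv
    refine le_trans ?_ (h4 v hv)
    have h5 : C / c ≤ √(1 + Real.log M) := by
      apply Real.le_sqrt_of_sq_le
      linarith
    rw [div_le_iff₀ hc] at h5
    rw [Real.sqrt_mul (Nat.cast_nonneg _)]
    have h6 : 0 ≤ √(n : ℝ) := Real.sqrt_nonneg _
    nlinarith
  have h2 : (exceptions (fun m => ∃ᶠ n : ℕ in atTop,
      ∀ v : ℤ, v = 0 ∨ v = 1 → C * √n ≤ count v (m * √2) n) M : ℝ) ≤ ε / 2 * M := by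
    refine le_trans (Nat.cast_le.2 h1) ?_
    exact Nat.floor_le (by positivity)
  rw [Real.dist_eq, sub_zero, abs_of_nonneg (by positivity), div_lt_iff₀ (by linarith)]
  nlinarith

end Pool.Agent.Results.MP_0308e6_nt.DigitCountsOfMultiples
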