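import Pool.Agent.L7h23.MasterSqrt

/-!
# The places of a binary digit of `√2`: residue classes, windows and sparse sets of sums

No hypothesis is assumed.  Let `v` be `0` or `1`.  Everything is a lower bound for weighted numbers
of ordered pairs of places `i, j ≥ 1`, `i + j ≤ n`, of the digit `v` of `√2`.
-/

set_option autoImplicit false

open Finset

namespace Pool.Agent.Results.MP_0308e6_nt.ResidueClasses

open Pool.Agent.L7h23

/-- the `k`-th digit of `ξ` after the point in base `b` -/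
noncomputable def digit (b : ℕ) (ξ : ℝ) (k : ℕ) : ℤ := ⌊ξ * (b : ℝ) ^ k⌋ % (b : ℤ)

/-- the places `k` with `1 ≤ k ≤ n` of the binary digit `v` of `√2` -/
noncomputable def places (v : ℤ) (n : ℕ) : Finset ℕ :=
  (Icc 1 n).filter fun k => digit 2 (Real.sqrt 2) k = v

/-- the ordered pairs `(i, j)` of places of the binary digit `v` of `√2` with `i + j ≤ n` -/
noncomputable def pairs (v : ℤ) (n : ℕ) : Finset (ℕ × ℕ) :=
  (places v n ×ˢ places v n).filter fun p => p.1 + p.2 ≤ n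

/-- `c_1 + … + c_n` -/
noncomputable def total (c : ℕ → ℝ) (n : ℕ) : ℝ := ∑ k ∈ Icc 1 n, c k

/-- the sum of the `c_k` over the `k` in `[1, n]` with `k % q = r` -/
noncomputable def inClass (c : ℕ → ℝ) (q r n : ℕ) : ℝ :=
  ∑ k ∈ (Icc 1 n).filter (fun k => k % q = r), c k

/-- the sum of `c_i c_j ω (i + j)` over all `i, j ≥ 1` with `i + j ≤ n` -/
noncomputable def pairSum (c ω : ℕ → ℝ) (n : ℕ) : ℝ :=
  ∑ i ∈ Icc 1 n, ∑ j ∈ Icc 1 (n - i), c i * c j * ω (i + j)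

/-- the sum of `b ^ (R - m)` over the `R` in `S` below `m` -/
noncomputable def near (b : ℕ) (S : Finset ℕ) (m : ℕ) : ℝ :=
  ∑ R ∈ S.filter (fun R => R < m), 1 / (b : ℝ) ^ (m - R)

/-- Six lower bounds for a sequence `c 1, c 2, …` in base `b`, with constant `τ`. -/
def Bounds (b : ℕ) (c : ℕ → ℝ) (τ : ℝ) : Prop :=
  -- all sets of places
  (∀ ε : ℝ, 0 < ε → ∃ D : ℝ, ∀ n : ℕ, ∀ S ⊆ range n,
    τ * S.card ≤ pairSum c (near b S) n + ε * n + D * (total c n + 1)) ∧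
  -- residue classes of the sums
  (∀ q : ℕ, 1 ≤ q → ∀ ε : ℝ, 0 < ε → ∃ n₀ : ℕ, ∀ n : ℕ, n₀ ≤ n → ∀ i : ℤ,
    ((b : ℝ) ^ q - 1) * ((τ / q - ε) * n) ≤
      pairSum c (fun m => (b : ℝ) ^ (((i - m) % (q : ℤ)).toNat)) n) ∧
  -- residue classes of the places
  (∀ q : ℕ, 1 ≤ q → ∀ ε : ℝ, 0 < ε → ∃ n₀ : ℕ, ∀ n : ℕ, n₀ ≤ n → ∀ r : ℕ,
    ((b : ℝ) ^ q - 1) * ((τ / q - ε) * n) ≤
      (b : ℝ) ^ (q - 1) * total c n ^ 2 - ((b : ℝ) ^ (q - 1) - 1) * inClass c q r n ^ 2) ∧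
  -- even and odd places
  (∀ ε : ℝ, 0 < ε → ∃ n₀ : ℕ, ∀ n : ℕ, n₀ ≤ n →
    ((b : ℝ) ^ 2 - 1) * ((τ / 2 - ε) * n) ≤
      inClass c 2 0 n ^ 2 + 2 * b * (inClass c 2 0 n * inClass c 2 1 n) + inClass c 2 1 n ^ 2 ∧
    ((b : ℝ) ^ 2 - 1) * ((τ / 2 - ε) * n) ≤
      b * (inClass c 2 0 n ^ 2 + inClass c 2 1 n ^ 2) +
        2 * (inClass c 2 0 n * inClass c 2 1 n)) ∧
  -- windows
  (∀ δ : ℝ, 0 ≤ δ → δ ≤ 1 / 2 → ∀ ε : ℝ, 0 < ε → ∃ D : ℝ, ∀ n : ℕ,
    ((b : ℝ) - 1) * ((τ * (1 - 2 * δ) - ε) * n) ≤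
      2 * ((total c (n / 2) + D) * (total c n - total c ⌊δ * n⌋₊ + D))) ∧
  -- sparse sets of sums
  (∀ X : ℝ, 0 ≤ X → ∀ ε : ℝ, 0 < ε → ∃ η : ℝ, 0 < η ∧ ∃ n₀ : ℕ, ∀ n : ℕ, n₀ ≤ n →
    total c n ^ 2 ≤ X * n → ∀ Q : Finset ℕ, (Q.card : ℝ) ≤ η * n →
      ((b : ℝ) - 1) * ((τ - ε) * n) ≤ pairSum c (fun m => if m ∈ Q then 0 else 1) n)

lemma digit_neg {b : ℕ} (hb : 2 ≤ b) {ξ : ℝ} (hirr : Irrational ξ) (k : ℕ) :
    digit b (-ξ) k = b - 1 - digit b ξ k := by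
  unfold digit
  have h1 : ⌊-ξ * (b : ℝ) ^ k⌋ = -⌊ξ * (b : ℝ) ^ k⌋ - 1 := by
    have h2 : Irrational (ξ * ((b ^ k : ℕ) : ℝ)) := hirr.mul_natCast (by positivity)
    have h3 : ξ * (b : ℝ) ^ k = ξ * ((b ^ k : ℕ) : ℝ) := by push_cast; rfl
    rw [neg_mul, h3]
    set z : ℝ := ξ * ((b ^ k : ℕ) : ℝ) with hz
    rw [Int.floor_eq_iff]
    push_cast
    have h4 := Int.floor_le z
    have h5 := Int.lt_floor_add_one z
    have h6 : (⌊z⌋ : ℝ) ≠ z := fun h => h2 ⟨(⌊z⌋ : ℚ), by push_cast; exact h⟩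
    have h7 : (⌊z⌋ : ℝ) < z := lt_of_le_of_ne h4 h6
    constructor <;> linarith
  rw [h1]
  set m := ⌊ξ * (b : ℝ) ^ k⌋
  have hb' : (0 : ℤ) < b := by exact_mod_cast (by omega : 0 < b)
  have h8 := Int.emod_add_mul_ediv m b
  have h9 := Int.emod_nonneg m hb'.ne'
  have h10 := Int.emod_lt_of_pos m hb'
  have h11 : -m - 1 = (b - 1 - m % b) + b * (-(m / b) - 1) := by linarith
  rw [h11, Int.add_mul_emod_self_left]
  exact Int.emod_eq_of_lt (by omega) (by omega)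

theorem bounds_of {b : ℕ} (hb : 2 ≤ b) {A B C : ℤ} (hA : 0 < A) {ξ : ℝ} (hirr : Irrational ξ)
    (hq : (A : ℝ) * ξ ^ 2 + B * ξ + C = 0) :
    Bounds b (fun k => (digit b ξ k : ℝ)) ((Int.gcd b (2 * A) : ℕ) / A) := by
  have hbR : (2 : ℝ) ≤ b := by exact_mod_cast hb
  have hAR : (1 : ℝ) ≤ A := by exact_mod_cast hA
  have hb' : (0 : ℤ) < b := by exact_mod_cast (by omega : 0 < b)
  set c : ℕ → ℝ := fun k => (digit b ξ k : ℝ) with hc
  have hc0 : ∀ k, 0 ≤ c k := fun k => by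
    have : (0 : ℤ) ≤ digit b ξ k := Int.emod_nonneg _ hb'.ne'
    change (0 : ℝ) ≤ (digit b ξ k : ℝ)
    exact_mod_cast this
  have hc1 : ∀ k, c k ≤ b := fun k => by
    have : digit b ξ k < b := Int.emod_lt_of_pos _ hb'
    change (digit b ξ k : ℝ) ≤ (b : ℝ)
    exact_mod_cast this.le
  have hτ : (0 : ℝ) ≤ (Int.gcd b (2 * A) : ℕ) / A := by positivity
  have hm : Master.Master b c ((Int.gcd b (2 * A) : ℕ) / A) :=
    Master.master_real hb hA hirr hq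
  have hg : 1 ≤ Int.gcd b (2 * A) := Int.gcd_pos_of_ne_zero_left _ (by exact_mod_cast hb'.ne')
  have hinf : ∀ X : ℝ, ∃ L : ℕ, X ≤ Master.N c L := by
    intro X
    set κ : ℝ := 7 * Real.sqrt (((b : ℝ) - 1) * (Int.gcd b (2 * A) : ℕ) / (48 * A)) with hκ
    have hκ0 : 0 < κ := by
      have h1 : (1 : ℝ) ≤ (Int.gcd b (2 * A) : ℕ) := by exact_mod_cast hg
      have h2 : (0 : ℝ) < (b : ℝ) - 1 := by linarith
      positivity
    obtain ⟨n0, hn0⟩ := Pool.Agent.H820R3.DG.quad_real hb hA hirr hq (κ / 2) (by positivity)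
    obtain ⟨m, hm⟩ := exists_nat_ge ((2 * |X| / κ) ^ 2)
    refine ⟨max n0 m, ?_⟩
    have h1 := hn0 (max n0 m) (le_max_left _ _)
    have h2 : 2 * |X| / κ ≤ Real.sqrt ((max n0 m : ℕ) : ℝ) := by
      apply Real.le_sqrt_of_sq_le
      exact hm.trans (by exact_mod_cast le_max_right _ _)
    have h3 : ((∑ k ∈ range (max n0 m), ⌊ξ * (b : ℝ) ^ (k + 1)⌋ % (b : ℤ) : ℤ) : ℝ) =
        Master.N c (max n0 m) := by
      unfold Master.N
      have e : Icc 1 (max n0 m) = Ico 1 (max n0 m + 1) := by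
        ext k; simp only [mem_Icc, mem_Ico]; omega
      rw [e, sum_Ico_eq_sum_range, Nat.add_sub_cancel]
      push_cast
      refine sum_congr rfl fun j _ => ?_
      rw [Nat.add_comm 1 j]
      simp only [hc, digit]
      try rfl
    rw [h3] at h1
    rw [div_le_iff₀ hκ0] at h2
    have h4 := le_abs_self X
    have e5 : κ - κ / 2 = κ / 2 := by ring
    rw [← hκ, e5] at h1
    linarith
  refine ⟨fun ε hε => ?_, fun q hq' ε hε => ?_, fun q hq' ε hε => ?_, fun ε hε => ?_,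
    fun δ hδ0 hδ1 ε hε => ?_, fun X hX ε hε => ?_⟩
  · obtain ⟨D, _, hD⟩ := hm ε hε
    exact ⟨D, hD⟩
  · exact Master.classes hb hc0 hc1 hinf hτ hm hq' hε
  · exact Master.one_class hb hc0 hc1 hinf hτ hm hq' hε
  · exact Master.even_odd hb hc0 hc1 hinf hτ hm hε
  · obtain ⟨D, _, hD⟩ := Master.windows hb hc0 hτ hm hδ0 hδ1 hε
    exact ⟨D, hD⟩
  · exact Master.sparse hb hc0 hτ hm hX hε

theorem bounds_both {b : ℕ} (hb : 2 ≤ b) {A B C : ℤ} (hA : 0 < A) {ξ : ℝ} (hirr : Irrational ξ)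
    (hq : (A : ℝ) * ξ ^ 2 + B * ξ + C = 0) :
    Bounds b (fun k => (digit b ξ k : ℝ)) ((Int.gcd b (2 * A) : ℕ) / A) ∧
    Bounds b (fun k => (b : ℝ) - 1 - (digit b ξ k : ℝ)) ((Int.gcd b (2 * A) : ℕ) / A) := by
  refine ⟨bounds_of hb hA hirr hq, ?_⟩
  have h := bounds_of hb (A := A) (B := -B) (C := C) hA hirr.neg (by push_cast; linarith)
  have e : (fun k => (digit b (-ξ) k : ℝ)) = fun k => (b : ℝ) - 1 - (digit b ξ k : ℝ) := by
    funext k
    rw [digit_neg hb hirr]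
    push_cast
    ring
  rwa [e] at h

lemma digit_two (k : ℕ) : digit 2 (Real.sqrt 2) k = 0 ∨ digit 2 (Real.sqrt 2) k = 1 := by
  unfold digit
  push_cast
  omega

/-- the sequence of the digit `v` -/
noncomputable def ind (v : ℤ) (k : ℕ) : ℝ := if digit 2 (Real.sqrt 2) k = v then 1 else 0

lemma bounds_sqrt (v : ℤ) (hv : v = 0 ∨ v = 1) : Bounds 2 (ind v) 2 := by
  obtain ⟨h1, h2⟩ := bounds_both (b := 2) le_rfl (A := 1) (B := 0) (C := -2) one_pos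
    (ξ := Real.sqrt 2) irrational_sqrt_two (by
      push_cast
      rw [Real.sq_sqrt (by norm_num)]; norm_num)
  have e1 : Int.gcd (2 : ℕ) (2 * 1) = 2 := by decide
  rw [e1] at h1 h2
  have e2 : (((2 : ℕ) : ℝ) / ((1 : ℤ) : ℝ)) = 2 := by norm_num
  rw [e2] at h1 h2
  rcases hv with rfl | rfl
  · have e : (fun k => ((2 : ℕ) : ℝ) - 1 - (digit 2 (Real.sqrt 2) k : ℝ)) = ind 0 := by
      funext k
      unfold ind
      rcases digit_two k with h | h <;> rw [h] <;> norm_num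
    rwa [e] at h2
  · have e : (fun k => (digit 2 (Real.sqrt 2) k : ℝ)) = ind 1 := by
      funext k
      unfold ind
      rcases digit_two k with h | h <;> rw [h] <;> norm_num
    rwa [e] at h1

lemma ind_nonneg (v : ℤ) (k : ℕ) : 0 ≤ ind v k := by unfold ind; split_ifs <;> norm_num

lemma total_ind (v : ℤ) (n : ℕ) : total (ind v) n = (places v n).card := by
  unfold total places ind
  rw [card_filter]
  push_cast
  rfl

lemma inClass_ind (v : ℤ) (q r n : ℕ) :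
    inClass (ind v) q r n = ((places v n).filter (fun k => k % q = r)).card := by
  unfold inClass places ind
  rw [filter_filter, card_filter, sum_filter]
  push_cast
  refine sum_congr rfl fun k _ => ?_
  by_cases h1 : k % q = r <;> by_cases h2 : digit 2 (Real.sqrt 2) k = v <;> simp [h1, h2]

lemma pairSum_ind (v : ℤ) (ω : ℕ → ℝ) (n : ℕ) :
    pairSum (ind v) ω n = ∑ p ∈ pairs v n, ω (p.1 + p.2) := by
  unfold pairs
  rw [sum_filter, sum_product]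
  unfold places
  rw [sum_filter]
  unfold pairSum
  refine sum_congr rfl fun i hi => ?_
  have hi' := mem_Icc.1 hi
  unfold ind
  by_cases h1 : digit 2 (Real.sqrt 2) i = v
  · rw [if_pos h1, sum_filter]
    simp only [h1, if_true, one_mul]
    have e : Icc 1 (n - i) = (Icc 1 n).filter (fun j => i + j ≤ n) := by
      ext j; simp only [mem_filter, mem_Icc]; omega
    rw [e, sum_filter]
    refine sum_congr rfl fun j _ => ?_
    by_cases h2 : digit 2 (Real.sqrt 2) j = v <;> by_cases h3 : i + j ≤ n <;> simp [h2, h3]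
  · rw [if_neg h1]
    simp [h1]

/-- The result. -/
theorem result :
    -- the binary digits of the square root of two
    (∀ v : ℤ, v = 0 ∨ v = 1 →
      (∀ ε : ℝ, 0 < ε → ∃ D : ℝ, ∀ n : ℕ, ∀ S ⊆ range n,
        2 * (S.card : ℝ) ≤ ∑ p ∈ pairs v n, near 2 S (p.1 + p.2) + ε * n +
          D * ((places v n).card + 1)) ∧
      (∀ q : ℕ, 1 ≤ q → ∀ ε : ℝ, 0 < ε → ∃ n₀ : ℕ, ∀ n : ℕ, n₀ ≤ n → ∀ i : ℤ,
        ((2 : ℝ) ^ q - 1) * ((2 / q - ε) * n) ≤
          ∑ p ∈ pairs v n, (2 : ℝ) ^ (((i - (p.1 + p.2 : ℕ)) % (q : ℤ)).toNat)) ∧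
      (∀ q : ℕ, 1 ≤ q → ∀ ε : ℝ, 0 < ε → ∃ n₀ : ℕ, ∀ n : ℕ, n₀ ≤ n → ∀ r : ℕ,
        ((2 : ℝ) ^ q - 1) * ((2 / q - ε) * n) ≤
          (2 : ℝ) ^ (q - 1) * ((places v n).card : ℝ) ^ 2 - ((2 : ℝ) ^ (q - 1) - 1) *
            (((places v n).filter (fun k => k % q = r)).card : ℝ) ^ 2) ∧
      (∀ ε : ℝ, 0 < ε → ∃ n₀ : ℕ, ∀ n : ℕ, n₀ ≤ n → ∀ e o : ℝ,
        e = ((places v n).filter (fun k => k % 2 = 0)).card →
        o = ((places v n).filter (fun k => k % 2 = 1)).card →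
          (3 - ε) * n ≤ e ^ 2 + 4 * (e * o) + o ^ 2 ∧
          (3 - ε) * n ≤ 2 * (e ^ 2 + e * o + o ^ 2)) ∧
      (∀ δ : ℝ, 0 ≤ δ → δ ≤ 1 / 2 → ∀ ε : ℝ, 0 < ε → ∃ D : ℝ, ∀ n : ℕ,
        (1 - 2 * δ - ε) * n ≤ ((places v (n / 2)).card + D) *
          ((places v n).card - (places v ⌊δ * n⌋₊).card + D)) ∧
      (∀ X : ℝ, 0 ≤ X → ∀ ε : ℝ, 0 < ε → ∃ η : ℝ, 0 < η ∧ ∃ n₀ : ℕ, ∀ n : ℕ, n₀ ≤ n →
        ((places v n).card : ℝ) ^ 2 ≤ X * n → ∀ Q : Finset ℕ, (Q.card : ℝ) ≤ η * n →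
          (2 - ε) * n ≤ ((pairs v n).filter (fun p => p.1 + p.2 ∉ Q)).card)) ∧
    -- short windows of sums of two places of ones
    (∃ D : ℝ, ∀ n h : ℕ, h ≤ n → 2 * (h : ℝ) ≤
      ((pairs 1 n).filter (fun p => n - h < p.1 + p.2)).card + D * ((places 1 n).card + 1)) ∧
    -- square roots: no linear loss
    (∀ d b : ℕ, ¬ IsSquare d → 2 ≤ b → ∃ D : ℝ, ∀ n : ℕ, ∀ S ⊆ range n,
      (Nat.gcd b 2 : ℝ) * S.card ≤
        pairSum (fun k => (digit b (Real.sqrt d) k : ℝ)) (near b S) n +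
          D * (total (fun k => (digit b (Real.sqrt d) k : ℝ)) n + 1)) ∧
    -- quadratic irrationals
    (∀ b : ℕ, 2 ≤ b → ∀ A B C : ℤ, 0 < A → ∀ ξ : ℝ, Irrational ξ →
      (A : ℝ) * ξ ^ 2 + B * ξ + C = 0 →
        Bounds b (fun k => (digit b ξ k : ℝ)) ((Int.gcd b (2 * A) : ℕ) / A) ∧
        Bounds b (fun k => (b : ℝ) - 1 - (digit b ξ k : ℝ)) ((Int.gcd b (2 * A) : ℕ) / A)) := by
  refine ⟨fun v hv => ?_, ?_, ?_, fun b hb A B C hA ξ hξ hq => bounds_both hb hA hξ hq⟩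
  · obtain ⟨h1, h2, h3, h4, h5, h6⟩ := bounds_sqrt v hv
    refine ⟨fun ε hε => ?_, fun q hq' ε hε => ?_, fun q hq' ε hε => ?_, fun ε hε => ?_,
      fun δ hδ0 hδ1 ε hε => ?_, fun X hX ε hε => ?_⟩
    · obtain ⟨D, hD⟩ := h1 ε hε
      refine ⟨D, fun n S hS => ?_⟩
      have := hD n S hS
      rwa [pairSum_ind, total_ind] at this
    · obtain ⟨n₀, hn₀⟩ := h2 q hq' ε hε
      refine ⟨n₀, fun n hn i => ?_⟩
      have := hn₀ n hn i
      rw [pairSum_ind] at this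
      exact_mod_cast this
    · obtain ⟨n₀, hn₀⟩ := h3 q hq' ε hε
      refine ⟨n₀, fun n hn r => ?_⟩
      have := hn₀ n hn r
      rw [inClass_ind, total_ind] at this
      exact_mod_cast this
    · obtain ⟨n₀, hn₀⟩ := h4 (ε / 3) (by positivity)
      refine ⟨n₀, fun n hn e o he ho => ?_⟩
      obtain ⟨g1, g2⟩ := hn₀ n hn
      rw [inClass_ind, inClass_ind, ← he, ← ho] at g1 g2
      push_cast at g1 g2
      constructor
      · have e3 : ((2 : ℝ) ^ 2 - 1) * ((2 / 2 - ε / 3) * n) = (3 - ε) * n := by ring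
        rw [e3] at g1
        linarith
      · have e3 : ((2 : ℝ) ^ 2 - 1) * ((2 / 2 - ε / 3) * n) = (3 - ε) * n := by ring
        rw [e3] at g2
        linarith
    · obtain ⟨D, hD⟩ := h5 δ hδ0 hδ1 (2 * ε) (by positivity)
      refine ⟨D, fun n => ?_⟩
      have := hD n
      rw [total_ind, total_ind, total_ind] at this
      push_cast at this
      linarith
    · obtain ⟨η, hη, n₀, hn₀⟩ := h6 X hX ε hε
      refine ⟨η, hη, n₀, fun n hn hX' Q hQ => ?_⟩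
      have := hn₀ n hn (by rwa [total_ind]) Q hQ
      rw [pairSum_ind] at this
      rw [card_filter]
      push_cast at this ⊢
      have e : ∑ p ∈ pairs v n, (if p.1 + p.2 ∉ Q then (1 : ℝ) else 0) =
          ∑ p ∈ pairs v n, (if p.1 + p.2 ∈ Q then (0 : ℝ) else 1) :=
        sum_congr rfl fun p _ => by by_cases h : p.1 + p.2 ∈ Q <;> simp [h]
      rw [e]
      linarith
  · obtain ⟨D, _, hD⟩ := Master.master_sqrt 2 2 (by
      intro ⟨r, hr⟩
      have : r < 2 := by nlinarith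
      interval_cases r <;> omega) le_rfl
    refine ⟨D, fun n h hh => ?_⟩
    have h1 := hD n (Ico (n - h) n) (fun R hR => mem_range.2 (mem_Ico.1 hR).2)
    have e : (fun k => ((⌊Real.sqrt (2 : ℕ) * ((2 : ℕ) : ℝ) ^ k⌋ % ((2 : ℕ) : ℤ) : ℤ) : ℝ)) =
        ind 1 := by
      funext k
      have e0 : ⌊Real.sqrt (2 : ℕ) * ((2 : ℕ) : ℝ) ^ k⌋ % ((2 : ℕ) : ℤ) =
          digit 2 (Real.sqrt 2) k := rfl
      rw [e0]
      unfold ind
      rcases digit_two k with h | h <;> rw [h] <;> norm_num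
    rw [e] at h1
    have e1 : (Icc 1 n).sum (ind 1) = (places 1 n).card := total_ind 1 n
    rw [e1] at h1
    have e2 : ((Nat.gcd 2 2 : ℕ) : ℝ) = 2 := by norm_num
    rw [e2, Nat.card_Ico, show n - (n - h) = h by omega] at h1
    refine h1.trans (add_le_add_left ?_ _ |>.trans_eq' rfl)
    have h2 : Master.pairSum (ind 1) (Master.wt 2 (Ico (n - h) n)) n ≤
        Master.pairSum (ind 1) (fun m => if n - h < m then 1 else 0) n := by
      refine Master.pairSum_mono (ind_nonneg 1) (fun m => ?_) n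
      split_ifs with hm
      · refine (Master.wt_le le_rfl _ m).trans (by norm_num)
      · unfold Master.wt
        rw [filter_false_of_mem, sum_empty]
        intro R hR
        have := (mem_Ico.1 hR).1
        omega
    refine h2.trans (le_of_eq ?_)
    have h3 := pairSum_ind 1 (fun m => if n - h < m then 1 else 0) n
    rw [card_filter]
    push_cast
    exact h3
  · intro d b hd hb
    obtain ⟨D, _, hD⟩ := Master.master_sqrt d b hd hb
    exact ⟨D, hD⟩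

end Pool.Agent.Results.MP_0308e6_nt.ResidueClasses
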