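import Pool.Agent.L7h21.Sq.Uniq

/-!
# Integers that are a sum of two places of a binary digit of `√2` in exactly one way

No hypothesis is assumed.  Let `ξ` be a real quadratic integer (for example `√2`), let `v` be `0` or
`1`, and let `N`, `P`, `U`, `S` be the number of places `k ≤ n` of the binary digit `v` of `ξ`, the
number of ordered pairs of places of `v` whose sum is at most `n`, the number of `m ≤ n` that are the
sum of exactly one unordered pair of places of `v`, and the number of `m ≤ n` that are the sum of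
two places of `v`.  Then `(3 - ε) n ≤ N² + U` and `(2 ^ (g + 1) - ε) n ≤ N² + 2 ((g - 1) 2 ^ g + 1) S`
for every `g` and all large `n`, and the same holds with `P` in place of `N²` if `N ≤ η n`.
-/

set_option autoImplicit false

open Finset

namespace Pool.Agent.Results.MP_0308e6_nt.UniqueSums

open Pool.Agent.L7h21.Sq.Uniq Pool.Agent.H394R2.Ones Pool.Agent.H820R3.DG

/-- the `k`-th binary digit of `ξ` after the point -/
noncomputable def digit (ξ : ℝ) (k : ℕ) : ℤ := ⌊ξ * 2 ^ k⌋ % 2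

/-- the number of `k` in `[1, n]` for which the `k`-th digit is `v` -/
noncomputable def count (ξ : ℝ) (v : ℤ) (n : ℕ) : ℕ :=
  ((Icc 1 n).filter fun k => digit ξ k = v).card

/-- the number of ordered pairs `(i, j)`, `i, j ≥ 1`, with `i + j = m` and with the digit `v` at the
places `i` and `j` -/
noncomputable def rep (ξ : ℝ) (v : ℤ) (m : ℕ) : ℕ :=
  ((Ico 1 m).filter fun i => digit ξ i = v ∧ digit ξ (m - i) = v).card

/-- the number of ordered pairs of places of the digit `v` whose sum is at most `n` -/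
noncomputable def pairs (ξ : ℝ) (v : ℤ) (n : ℕ) : ℕ := ∑ m ∈ Icc 1 n, rep ξ v m

/-- the number of `m` in `[1, n]` that are the sum of two places of the digit `v` -/
noncomputable def sums (ξ : ℝ) (v : ℤ) (n : ℕ) : ℕ := ((Icc 1 n).filter fun m => 0 < rep ξ v m).card

/-- the number of `m` in `[1, n]` for which exactly two ordered pairs of places of the digit `v`
have the sum `m` -/
noncomputable def uniq (ξ : ℝ) (v : ℤ) (n : ℕ) : ℕ := ((Icc 1 n).filter fun m => rep ξ v m = 2).card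

lemma digit_neg {ξ : ℝ} (hirr : Irrational ξ) (k : ℕ) : digit (-ξ) k = 1 - digit ξ k := by
  unfold digit
  have h1 : ⌊-ξ * (2 : ℝ) ^ k⌋ = -⌊ξ * (2 : ℝ) ^ k⌋ - 1 := by
    have h2 : Irrational (ξ * ((2 ^ k : ℕ) : ℝ)) := hirr.mul_natCast (by positivity)
    have h3 : ξ * (2 : ℝ) ^ k = ξ * ((2 ^ k : ℕ) : ℝ) := by push_cast; rfl
    rw [neg_mul, h3]
    set z : ℝ := ξ * ((2 ^ k : ℕ) : ℝ) with hz
    rw [Int.floor_eq_iff]
    push_cast
    have h4 := Int.floor_le z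
    have h5 := Int.lt_floor_add_one z
    have h6 : (⌊z⌋ : ℝ) ≠ z := fun h => h2 ⟨(⌊z⌋ : ℚ), by push_cast; exact h⟩
    have h7 : (⌊z⌋ : ℝ) < z := lt_of_le_of_ne h4 h6
    constructor <;> linarith
  rw [h1]
  omega

lemma digit_cases (ξ : ℝ) (k : ℕ) : digit ξ k = 0 ∨ digit ξ k = 1 := by
  unfold digit; omega

lemma card_Icc (P : ℕ → Prop) [DecidablePred P] (n : ℕ) :
    (((Icc 1 n).filter P).card : ℝ) = ∑ m ∈ range n, (if P (m + 1) then (1 : ℝ) else 0) := by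
  rw [card_filter]
  push_cast
  induction n with
  | zero => simp
  | succ n ih => rw [sum_Icc_succ_top (by omega), ih, sum_range_succ]

/-- the inequalities for the digit one -/
lemma ones {B C : ℤ} {ξ : ℝ} (hirr : Irrational ξ) (hq : ξ ^ 2 + B * ξ + C = 0) (g : ℕ) (δ : ℝ)
    (hδ : 0 < δ) : ∃ C2 : ℝ, 0 ≤ C2 ∧ ∀ n : ℕ, (pairs ξ 1 n : ℝ) ≤ (count ξ 1 n : ℝ) ^ 2 ∧
    (3 - δ) * n ≤ pairs ξ 1 n + uniq ξ 1 n + C2 * (count ξ 1 n + 1) ∧
    (2 ^ (g + 1) - δ) * n ≤ pairs ξ 1 n + 2 * (((g : ℝ) - 1) * 2 ^ g + 1) * sums ξ 1 n +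
      C2 * (count ξ 1 n + 1) := by
  set y : ℝ := Int.fract ξ with hy
  have hξ : ξ = ⌊ξ⌋ + y := (Int.floor_add_fract ξ).symm
  have hyirr : Irrational y := by
    have : y = ξ - (⌊ξ⌋ : ℤ) := rfl
    rw [this]
    exact hirr.sub_intCast _
  have hy0 : 0 < y := lt_of_le_of_ne (Int.fract_nonneg ξ) (Ne.symm hyirr.ne_zero)
  have hy1 : y < 1 := Int.fract_lt_one ξ
  have hq' : y ^ 2 + ((B + 2 * ⌊ξ⌋ : ℤ) : ℝ) * y + ((C + B * ⌊ξ⌋ + ⌊ξ⌋ ^ 2 : ℤ) : ℝ) = 0 := by
    have h1 : ((⌊ξ⌋ : ℝ) + y) ^ 2 + B * (⌊ξ⌋ + y) + C = 0 := by rw [← hξ]; exact hq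
    push_cast
    linarith
  have hdig : ∀ k : ℕ, digit ξ (k + 1) = (x 2 y (k + 1) : ℤ) := by
    intro k
    unfold digit
    have h1 : ξ * (2 : ℝ) ^ (k + 1) = ((⌊ξ⌋ * (2 : ℤ) ^ (k + 1) : ℤ) : ℝ) +
        y * (2 : ℝ) ^ (k + 1) := by
      nth_rewrite 1 [hξ]
      push_cast
      ring
    rw [h1, Int.floor_intCast_add]
    unfold x Pool.Agent.H394R2.Ones.B
    push_cast
    rw [Int.natCast_floor_eq_floor (by positivity)]
    rw [show ⌊ξ⌋ * (2 : ℤ) ^ (k + 1) + ⌊y * (2 : ℝ) ^ (k + 1)⌋ =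
      ⌊y * (2 : ℝ) ^ (k + 1)⌋ + (2 : ℤ) * (⌊ξ⌋ * (2 : ℤ) ^ k) by ring, Int.add_mul_emod_self_left]
  have hx0 : x 2 y 0 = 0 := x_zero hy0 hy1
  have hx2 : ∀ k, x 2 y k < 2 := fun k => Nat.mod_lt _ (by norm_num)
  have hdx : ∀ k : ℕ, 1 ≤ k → (digit ξ k = 1 ↔ x 2 y k = 1) := by
    intro k hk
    obtain ⟨j, rfl⟩ : ∃ j, k = j + 1 := ⟨k - 1, by omega⟩
    rw [hdig]
    omega
  have hcount : ∀ n, count ξ 1 n = K 2 y n := by
    intro n
    unfold count K
    rw [card_filter]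
    induction n with
    | zero => simp [hx0]
    | succ n ih =>
      rw [sum_Icc_succ_top (by omega), ih, sum_range_succ _ (n + 1)]
      congr 1
      have h1 := hdx (n + 1) (by omega)
      have h2 := hx2 (n + 1)
      by_cases h : digit ξ (n + 1) = 1
      · rw [if_pos h, h1.1 h]
      · rw [if_neg h]
        have : x 2 y (n + 1) ≠ 1 := fun h3 => h (h1.2 h3)
        omega
  have hrep : ∀ m, rep ξ 1 m = r 2 y m := by
    intro m
    unfold rep r
    rw [Finset.Nat.sum_antidiagonal_eq_sum_range_succ (fun i j => x 2 y i * x 2 y j)]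
    have h1 : ∑ k ∈ range (m + 1), x 2 y k * x 2 y (m - k) =
        ∑ k ∈ Ico 1 m, x 2 y k * x 2 y (m - k) := by
      symm
      refine sum_subset (fun k hk => ?_) (fun k hk hk2 => ?_)
      · rw [mem_Ico] at hk; rw [mem_range]; omega
      · rw [mem_range] at hk
        rw [mem_Ico] at hk2
        have : k = 0 ∨ k = m := by omega
        rcases this with rfl | rfl
        · rw [hx0, zero_mul]
        · rw [Nat.sub_self, hx0, mul_zero]
    rw [Nat.succ_eq_add_one, h1, card_filter]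
    refine sum_congr rfl fun k hk => ?_
    rw [mem_Ico] at hk
    have h2 := hdx k hk.1
    have h3 := hdx (m - k) (by omega)
    have h4 := hx2 k
    have h5 := hx2 (m - k)
    by_cases h6 : digit ξ k = 1
    · by_cases h7 : digit ξ (m - k) = 1
      · rw [if_pos ⟨h6, h7⟩, h2.1 h6, h3.1 h7]
      · rw [if_neg (fun h => h7 h.2)]
        have : x 2 y (m - k) = 0 := by
          have h8 : x 2 y (m - k) ≠ 1 := fun h8 => h7 (h3.2 h8)
          omega
        rw [this, mul_zero]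
    · rw [if_neg (fun h => h6 h.1)]
      have : x 2 y k = 0 := by
        have h8 : x 2 y k ≠ 1 := fun h8 => h6 (h2.2 h8)
        omega
      rw [this, zero_mul]
  have hpairs : ∀ n, (pairs ξ 1 n : ℝ) = RR y n := by
    intro n
    unfold pairs RR
    simp only [hrep]
    push_cast
    induction n with
    | zero => simp
    | succ n ih => rw [sum_Icc_succ_top (by omega), ih, sum_range_succ]
  have hsums : ∀ n, (sums ξ 1 n : ℝ) = SS y n := by
    intro n
    unfold sums SS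
    rw [card_Icc]
    refine sum_congr rfl fun m _ => ?_
    rw [hrep]
  have huniq : ∀ n, (uniq ξ 1 n : ℝ) = UU y n := by
    intro n
    unfold uniq UU
    rw [card_Icc]
    refine sum_congr rfl fun m _ => ?_
    rw [hrep]
  obtain ⟨C2, hC20, hC2⟩ := main hy0 hy1 hyirr hq' g δ hδ
  refine ⟨C2, hC20, fun n => ?_⟩
  rw [hpairs, hsums, huniq, hcount]
  exact ⟨RR_le hy0 hy1 hyirr hq' n, hC2 n⟩

/-- the inequalities for both digits -/
lemma both {B C : ℤ} {ξ : ℝ} (hirr : Irrational ξ) (hq : ξ ^ 2 + B * ξ + C = 0) (v : ℤ)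
    (hv : v = 0 ∨ v = 1) (g : ℕ) (δ : ℝ) (hδ : 0 < δ) : ∃ C2 : ℝ, 0 ≤ C2 ∧ ∀ n : ℕ,
    (pairs ξ v n : ℝ) ≤ (count ξ v n : ℝ) ^ 2 ∧
    (3 - δ) * n ≤ pairs ξ v n + uniq ξ v n + C2 * (count ξ v n + 1) ∧
    (2 ^ (g + 1) - δ) * n ≤ pairs ξ v n + 2 * (((g : ℝ) - 1) * 2 ^ g + 1) * sums ξ v n +
      C2 * (count ξ v n + 1) := by
  rcases hv with rfl | rfl
  · obtain ⟨C2, hC20, hC2⟩ := ones (B := -B) (C := C) hirr.neg (by push_cast; linarith) g δ hδ
    refine ⟨C2, hC20, fun n => ?_⟩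
    have h1 : ∀ k, digit (-ξ) k = 1 ↔ digit ξ k = 0 := by
      intro k
      rw [digit_neg hirr]
      omega
    have h2 : count (-ξ) 1 = count ξ 0 := by
      funext n
      unfold count
      simp only [h1]
    have h3 : rep (-ξ) 1 = rep ξ 0 := by
      funext n
      unfold rep
      simp only [h1]
    have h4 : pairs (-ξ) 1 = pairs ξ 0 := by funext n; unfold pairs; rw [h3]
    have h5 : sums (-ξ) 1 = sums ξ 0 := by funext n; unfold sums; rw [h3]
    have h6 : uniq (-ξ) 1 = uniq ξ 0 := by funext n; unfold uniq; rw [h3]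
    have h7 := hC2 n
    rwa [h2, h4, h5, h6] at h7
  · exact ones hirr hq g δ hδ

/-- The result. -/
theorem result (B C : ℤ) (ξ : ℝ) (hirr : Irrational ξ) (hq : ξ ^ 2 + B * ξ + C = 0)
    (v : ℤ) (hv : v = 0 ∨ v = 1) (g : ℕ) (ε : ℝ) (hε : 0 < ε) :
    (∃ n₀ : ℕ, ∀ n : ℕ, n₀ ≤ n →
      (3 - ε) * n ≤ (count ξ v n : ℝ) ^ 2 + uniq ξ v n ∧
      (2 ^ (g + 1) - ε) * n ≤
        (count ξ v n : ℝ) ^ 2 + 2 * (((g : ℝ) - 1) * 2 ^ g + 1) * sums ξ v n) ∧
    (∃ η : ℝ, 0 < η ∧ ∃ n₀ : ℕ, ∀ n : ℕ, n₀ ≤ n → (count ξ v n : ℝ) ≤ η * n →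
      (3 - ε) * n ≤ (pairs ξ v n : ℝ) + uniq ξ v n ∧
      (2 ^ (g + 1) - ε) * n ≤
        (pairs ξ v n : ℝ) + 2 * (((g : ℝ) - 1) * 2 ^ g + 1) * sums ξ v n) := by
  obtain ⟨C2, hC20, hC2⟩ := both hirr hq v hv g (ε / 2) (by linarith)
  have hg0 : (0 : ℝ) ≤ ((g : ℝ) - 1) * 2 ^ g + 1 := by
    rcases Nat.eq_zero_or_pos g with rfl | h
    · norm_num
    · have h1 : (1 : ℝ) ≤ g := by exact_mod_cast h
      have h2 : 0 ≤ ((g : ℝ) - 1) * 2 ^ g := mul_nonneg (by linarith) (by positivity)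
      linarith
  set η : ℝ := ε / (4 * (C2 + 1)) with hη
  have hη0 : 0 < η := by positivity
  have hηC : C2 * η ≤ ε / 4 := by
    have h1 : (C2 + 1) * η = ε / 4 := by rw [hη]; field_simp
    have h2 : (C2 + 1) * η = C2 * η + η := by ring
    linarith
  have second : ∀ n : ℕ, ⌈4 * C2 / ε⌉₊ ≤ n → (count ξ v n : ℝ) ≤ η * n →
      (3 - ε) * n ≤ (pairs ξ v n : ℝ) + uniq ξ v n ∧
      (2 ^ (g + 1) - ε) * n ≤
        (pairs ξ v n : ℝ) + 2 * (((g : ℝ) - 1) * 2 ^ g + 1) * sums ξ v n := by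
    intro n hn hc
    have hn' : C2 ≤ ε / 4 * n := by
      have h1 : (4 * C2 / ε) ≤ n := (Nat.le_ceil _).trans (by exact_mod_cast hn)
      rw [div_le_iff₀ hε] at h1
      linarith
    have hn0 : (0 : ℝ) ≤ n := Nat.cast_nonneg _
    have h1 : C2 * ((count ξ v n : ℝ) + 1) ≤ ε / 2 * n := by
      have h2 := mul_le_mul_of_nonneg_left hc hC20
      have h3 := mul_le_mul_of_nonneg_right hηC hn0
      linarith
    obtain ⟨_, h2, h3⟩ := hC2 n
    constructor <;> linarith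
  refine ⟨⟨max ⌈4 * C2 / ε⌉₊ ⌈(2 ^ (g + 2) + 3) / η ^ 2⌉₊, fun n hn => ?_⟩,
    η, hη0, _, second⟩
  have hn0 : (0 : ℝ) ≤ n := Nat.cast_nonneg _
  by_cases hc : (count ξ v n : ℝ) ≤ η * n
  · obtain ⟨h1, h2⟩ := second n ((le_max_left _ _).trans hn) hc
    obtain ⟨h3, _⟩ := hC2 n
    constructor <;> linarith
  · push Not at hc
    have h1 : (2 ^ (g + 2) + 3) / η ^ 2 ≤ n :=
      (Nat.le_ceil _).trans (by exact_mod_cast (le_max_right _ _).trans hn)
    rw [div_le_iff₀ (by positivity)] at h1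
    have h2 : (η * n) ^ 2 ≤ (count ξ v n : ℝ) ^ 2 :=
      pow_le_pow_left₀ (by positivity) hc.le 2
    have h3 : (2 ^ (g + 2) + 3) * (n : ℝ) ≤ (count ξ v n : ℝ) ^ 2 := by
      have h4 := mul_le_mul_of_nonneg_right h1 hn0
      have e : (n : ℝ) * η ^ 2 * n = (η * n) ^ 2 := by ring
      rw [e] at h4
      exact h4.trans h2
    have h4 : (0 : ℝ) ≤ uniq ξ v n := Nat.cast_nonneg _
    have h5 : (0 : ℝ) ≤ 2 * (((g : ℝ) - 1) * 2 ^ g + 1) * sums ξ v n := by positivity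
    have h6 : (0 : ℝ) ≤ 2 ^ (g + 1) * n := by positivity
    have h7 : (0 : ℝ) ≤ ε * n := by positivity
    have h8 : (2 : ℝ) ^ (g + 2) * n = 2 * (2 ^ (g + 1) * n) := by ring
    constructor <;> linarith

end Pool.Agent.Results.MP_0308e6_nt.UniqueSums
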